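import Pool.Agent.H71.ASF.Stmts

/-!
# ASF, module CKP
-/

set_option autoImplicit false

namespace ASF

universe u

section CKP

variable {A : Type u} [NonUnitalNonAssocRing A] {B : AddSubgroup A}

theorem CKP.add {z w : A} (h : KP B z) (h' : KP B w) : KP B (z + w) := fun b hb d hd => by
  rw [mul_add, add_mul, h b hb d hd, h' b hb d hd, add_zero]

theorem CKP.neg {z : A} (h : KP B z) : KP B (-z) := fun b hb d hd => by
  rw [mul_neg, neg_mul, h b hb d hd, neg_zero]

theorem CKP.sub {z w : A} (h : KP B z) (h' : KP B w) : KP B (z - w) := by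
  rw [sub_eq_add_neg]
  exact CKP.add h (CKP.neg h')

end CKP

theorem ckp (hCRU : CRUStmt.{u}) : CKPStmt.{u} := by
  intro A _ _ B hB
  -- the rules
  have R1 : ∀ b ∈ B, ∀ c ∈ B, ∀ x : A, (x * b) * c = 0 := fun b hb c hc x =>
    (hCRU A B hB b hb c hc x x).1
  have R2 : ∀ b ∈ B, ∀ c ∈ B, ∀ x : A, c * (b * x) = 0 := fun b hb c hc x =>
    (hCRU A B hB b hb c hc x x).2.1
  have R3 : ∀ b ∈ B, ∀ c ∈ B, ∀ x : A, (b * x) * c = b * (x * c) := fun b hb c hc x =>
    (hCRU A B hB b hb c hc x x).2.2.1
  have R4 : ∀ b ∈ B, ∀ c ∈ B, ∀ x y : A, asc (x * b) y c = b * asc x y c :=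
    fun b hb c hc x y => (hCRU A B hB b hb c hc x y).2.2.2.1
  have R5 : ∀ b ∈ B, ∀ c ∈ B, ∀ x y : A, asc (b * x) y c = asc x y c * b :=
    fun b hb c hc x y => (hCRU A B hB b hb c hc x y).2.2.2.2.1
  have R6 : ∀ b ∈ B, ∀ c ∈ B, ∀ x y : A, c * asc b x y = - (asc c x y * b) :=
    fun b hb c hc x y => (hCRU A B hB b hb c hc x y).2.2.2.2.2
  -- items
  have K1 : ∀ b ∈ B, ∀ x : A, KP B (x * b) := fun b hb x b' hb' d hd => by
    rw [← R3 b' hb' b hb x, R1 b hb d hd]
  have K2 : ∀ b ∈ B, ∀ x : A, KP B (b * x) := fun b hb x b' hb' d hd => by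
    rw [R2 b hb b' hb' x, zero_mul]
  have K3 : ∀ b ∈ B, ∀ x y : A, KP B (asc x y b) := fun b hb x y b' hb' d hd => by
    have e : asc x y b * d = - (b * asc d x y) := by
      rw [R6 d hd b hb x y, neg_neg, asc_cyc b x y]
    rw [R3 b' hb' d hd, e, mul_neg, R2 b hb b' hb', neg_zero]
  have K4 : ∀ b ∈ B, ∀ x y : A, KP B (x * (y * b)) := fun b hb x y => by
    have e : x * (y * b) = (x * y) * b - asc x y b := by simp only [asc]; abel
    rw [e]
    exact CKP.sub (K1 b hb _) (K3 b hb x y)
  have K5 : ∀ b ∈ B, ∀ x y : A, KP B ((b * x) * y) := fun b hb x y => by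
    have e : (b * x) * y = b * (x * y) + asc x y b := by
      rw [asc_cyc b x y]; simp only [asc]; abel
    rw [e]
    exact CKP.add (K2 b hb _) (K3 b hb x y)
  intro b hb c hc x y
  refine ⟨K1 b hb x, K2 b hb x, K3 b hb x y, K4 b hb x y, K5 b hb x y, ?_, ?_, ?_, ?_⟩
  · intro d hd
    have e : ((b * x) * c) * y = b * (x * (c * y)) - asc x y c * b - asc y x b * c := by
      have e1 : asc (b * x) y c = asc x y c * b := R5 b hb c hc x y
      have e2 : asc (c * y) x b = asc y x b * c := R5 c hc b hb y x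
      have e3 : asc (b * x) y c = - asc (b * x) c y := asc_s23 _ _ _
      have e4 : asc (c * y) x b = - asc b x (c * y) := asc_s13 _ _ _
      rw [← e1, ← e2, e3, e4]
      simp only [asc]; abel
    rw [e, sub_mul, sub_mul, R1 b hb d hd, R1 c hc d hd, sub_zero, sub_zero]
  · intro d hd
    have e : y * ((b * x) * c) = ((y * b) * x) * c - b * asc y x c - c * asc x y b := by
      have e1 : asc (y * b) x c = b * asc y x c := R4 b hb c hc y x
      have e2 : asc (x * c) y b = c * asc x y b := R4 c hc b hb x y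
      have e3 : asc (x * c) y b = asc y b (x * c) := (asc_cyc (x * c) y b).symm
      rw [R3 b hb c hc x, ← e1, ← e2, e3]
      simp only [asc]; abel
    rw [e, mul_sub, mul_sub, R2 b hb d hd, R2 c hc d hd, sub_zero, sub_zero, R3 d hd c hc]
  · intro z hz b' hb' d hd
    have e1 : b' * (z * (b * x)) = (b' * (z * b)) * x - b * asc z x b' + asc b' x z * b := by
      have f1 : asc (z * b) x b' = b * asc z x b' := R4 b hb b' hb' z x
      have f2 : b' * asc b x z = - (asc b' x z * b) := R6 b hb b' hb' x z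
      have f3 : asc (z * b) x b' = asc b' (z * b) x := asc_cyc b' (z * b) x
      have f4 : asc b x z = asc z b x := asc_cyc z b x
      rw [← f1, f3, ← neg_neg (asc b' x z * b), ← f2, f4]
      simp only [asc, mul_sub]; abel
    have e2 : b' * (z * b) = 0 := by rw [← R3 b' hb' b hb z, hz b' hb' b hb]
    rw [e1, e2, zero_mul, zero_sub, add_mul, neg_mul, K3 b' hb' z x b hb d hd, neg_zero,
      R1 b hb d hd, add_zero]
  · intro a d hd
    have g1 : asc c a (d * y) = - (asc y a c * d) := by
      have f1 : asc (d * y) a c = asc y a c * d := R5 d hd c hc y a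
      have f2 : asc (d * y) a c = - asc c a (d * y) := by rw [asc_s13 (d * y) a c, neg_neg]
      rw [← f1, f2, neg_neg]
    have g2 : (c * a) * (d * y) = c * (a * (d * y) + asc d y a) := by
      have f1 : c * asc d y a = - (asc c y a * d) := R6 d hd c hc y a
      have f2 : asc c y a = asc y a c := (asc_cyc c y a).symm
      have f3 : (c * a) * (d * y) = c * (a * (d * y)) + asc c a (d * y) := by
        simp only [asc]; abel
      rw [f3, g1, mul_add, f1, f2]
    have e : (x * (c * a)) * (d * y) - x * (c * (a * (d * y)))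
        = (c * (a * (d * y) + asc d y a)) * x - (c * a) * ((d * y) * x)
          - x * (asc y a c * d) := by
      have f1 : asc x (c * a) (d * y) = asc (c * a) (d * y) x := (asc_cyc x (c * a) (d * y)).symm
      have f2 : (x * (c * a)) * (d * y) - x * (c * (a * (d * y)))
          = asc x (c * a) (d * y) + x * asc c a (d * y) := by
        simp only [asc, mul_sub]; abel
      rw [f2, f1, g1, ← g2, mul_neg]
      simp only [asc]; abel
    rw [e]
    exact CKP.sub (CKP.sub (K5 c hc _ x) (K5 c hc a _)) (K4 d hd x _)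

end ASF
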