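import Pool.Agent.H71.ASF.Stmts

/-!
# ASF, module KQ0
-/

set_option autoImplicit false

namespace ASF

universe u

section KQ0

variable {A : Type u} [NonUnitalNonAssocRing A] {b1 b2 b3 : A}

theorem KQ0.XX_add2 (x y y' z : A) :
    XX b1 b2 b3 x (y + y') z = XX b1 b2 b3 x y z + XX b1 b2 b3 x y' z := by
  simp only [XX, cm_add2, asc_add2]; abel

theorem KQ0.XX_add3 (x y z z' : A) :
    XX b1 b2 b3 x y (z + z') = XX b1 b2 b3 x y z + XX b1 b2 b3 x y z' := by
  simp only [XX, asc_add3]; abel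

theorem KQ0.dl_add' (b c x y : A) : dl b c (x + y) = dl b c x + dl b c y := asc_add1 _ _ _ _

theorem KQ0.XX_add1 (x x' y z : A) :
    XX b1 b2 b3 (x + x') y z = XX b1 b2 b3 x y z + XX b1 b2 b3 x' y z := by
  simp only [XX, KQ0.dl_add', asc_add1]; abel

theorem KQ0.nu_add2 (x y y' : A) :
    nu b1 b2 b3 x (y + y') = nu b1 b2 b3 x y + nu b1 b2 b3 x y' := by
  simp only [nu, cm_add2]; abel

end KQ0

theorem kq0 (hKBE : KBEStmt.{u}) (hKSY : KSYStmt.{u}) (hKG3 : KG3Stmt.{u}) : KQ0Stmt.{u} := by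
  intro A _ _ _ b1 b2 b3 hN
  have hT : ∀ x y z : A, DS (dl b1 b2 x) (cm b3 y) z + DS (dl b2 b3 x) (cm b1 y) z
      + DS (dl b3 b1 x) (cm b2 y) z = cm (nu b1 b2 b3 x y) z - 3 • XX b1 b2 b3 x y z := by
    intro x y z
    simp only [DS, nu, XX, cm_add1, smul_add]; abel
  have hX : ∀ x y : A, XX b1 b2 b3 x y y = - cm (cm y (vv b1 b2 b3 x)) y := by
    intro x y
    have e : ∀ p b : A, asc p (cm b y) y = - cm y (asc b p y) := by
      intro p b
      have f1 : asc p (cm b y) y = asc (cm b y) y p := (asc_cyc p (cm b y) y).symm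
      have f2 : cm b y = - cm y b := cm_swap y b
      have f3 : asc (cm y b) y p = cm y (asc y b p) := asc_cmx y b p
      have f4 : asc y b p = asc b p y := (asc_cyc y b p).symm
      rw [f1, f2, asc_neg1, f3, f4]
    have hK := hKBE A b1 b2 b3 hN x y
    have g : cm y (cm (vv b1 b2 b3 x) y) = cm (cm y (vv b1 b2 b3 x)) y := by
      rw [cm_swap y (vv b1 b2 b3 x), cm_neg2, cm_swap (cm y (vv b1 b2 b3 x)) y, neg_neg]
    rw [← g, ← hK]
    simp only [XX, e, cm_add2]; abel
  have hQ : ∀ x y : A, XX b1 b2 b3 x y y + XX b1 b2 b3 y x y - cm (nu b1 b2 b3 x y) y = 0 := by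
    intro x y
    have h := hKG3 A b1 b2 b3 hN y x y
    rw [hT, hT] at h
    have e1 : DS y (vv b1 b2 b3 x) y = cm (cm y (vv b1 b2 b3 x)) y := by
      rw [DS, asc_xyx]; abel
    have e2 := hX x y
    have e3 : nu b1 b2 b3 y x = nu b1 b2 b3 x y := hKSY A b1 b2 b3 hN y x
    have e4 : DS y (vv b1 b2 b3 x) y = - XX b1 b2 b3 x y y := by rw [e1, e2, neg_neg]
    rw [e4, e3] at h
    apply c3
    linear_combination (norm := abel) h
  intro x y z
  set Q : A → A → A → A := fun x y z =>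
    XX b1 b2 b3 x y z + XX b1 b2 b3 y x z - cm (nu b1 b2 b3 x y) z with hQd
  have q1 : ∀ x y z, Q y x z = Q x y z := by
    intro x y z
    simp only [hQd, hKSY A b1 b2 b3 hN y x]; abel
  have q2 : ∀ x y z, Q x z y = - Q x y z := by
    intro x y z
    have h := hQ x (y + z)
    have h1 := hQ x y
    have h2 := hQ x z
    simp only [KQ0.XX_add1, KQ0.XX_add2, KQ0.XX_add3, KQ0.nu_add2, cm_add1, cm_add2] at h
    simp only [hQd]
    linear_combination (norm := abel) h - h1 - h2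
  have q3 : Q x y z = - Q x y z := by
    calc Q x y z = - Q x z y := by rw [q2 x y z, neg_neg]
      _ = - Q z x y := by rw [q1 z x y]
      _ = Q z y x := by rw [q2 z x y]
      _ = Q y z x := q1 y z x
      _ = - Q y x z := q2 y x z
      _ = - Q x y z := by rw [q1 x y z]
  have h := eq_zero_of_eq_neg q3
  exact sub_eq_zero.mp h

end ASF
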