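import Pool.Agent.H71.ASF.Stmts

/-!
# ASF, module NFA: facts for a first level orthogonal tensor
-/

set_option autoImplicit false

namespace ASF

universe u

section NFA

variable {A : Type u} [NonUnitalNonAssocRing A] [Alt A] {ι : Type} [Fintype ι] {r s : ι → A}

theorem NFA.as0 (h : O1F r s) (a : A) : ∑ k, asc (r k) (s k) a = 0 := by
  have h1 : ∑ k, (r k * s k) * a = 0 := by rw [← Finset.sum_mul, h.rs, zero_mul]
  simp only [asc, Finset.sum_sub_distrib, h1, h.r_sa a, sub_zero]

theorem NFA.as0' (h : O1F r s) (a : A) : ∑ k, asc a (r k) (s k) = 0 := by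
  rw [← NFA.as0 h a]
  exact Finset.sum_congr rfl fun k _ => (asc_cyc a (r k) (s k)).symm

theorem NFA.kl0 (h : O1F r s) (a c : A) : ∑ k, kl (r k) (s k) a c = 0 := by
  have e : ∀ k, kl (r k) (s k) a c
      = asc (a * c) (r k) (s k) - c * asc a (r k) (s k) - asc c (r k) (s k) * a := fun k => by
    rw [← kl_pair (r k) (s k) a c]
    rfl
  rw [Finset.sum_congr rfl fun k _ => e k, Finset.sum_sub_distrib, Finset.sum_sub_distrib,
    ← Finset.mul_sum, ← Finset.sum_mul, NFA.as0' h, NFA.as0' h, NFA.as0' h]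
  simp

theorem NFA.sac_r (h : O1F r s) (a c : A) :
    ∑ k, asc (s k) a c * r k = - ∑ k, s k * asc (r k) a c := by
  have h0 := NFA.kl0 h a c
  have h1 : ∑ k, asc (r k * s k) a c = 0 := by
    simp only [asc, Finset.sum_sub_distrib, ← Finset.sum_mul, h.rs]
    simp
  simp only [kl, Finset.sum_sub_distrib, h1] at h0
  linear_combination (norm := abel) -h0

theorem NFA.r_sac (h : O1F r s) (a c : A) :
    ∑ k, r k * asc (s k) a c = - ∑ k, asc (r k) a c * s k := by
  have h0 : ∑ k, kl (s k) (r k) a c = 0 := by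
    have e : ∀ k, kl (s k) (r k) a c = - kl (r k) (s k) a c := fun k => kl_s12 _ _ _ _
    rw [Finset.sum_congr rfl fun k _ => e k, Finset.sum_neg_distrib, NFA.kl0 h, neg_zero]
  have h1 : ∑ k, asc (s k * r k) a c = 0 := by
    simp only [asc, Finset.sum_sub_distrib, ← Finset.sum_mul, h.sr]
    simp
  simp only [kl, Finset.sum_sub_distrib, h1] at h0
  linear_combination (norm := abel) -h0

theorem NFA.ar_s_c (h : O1F r s) (a c : A) :
    ∑ k, asc (a * r k) (s k) c = ∑ k, asc (r k) a c * s k := by
  have e : ∀ k, asc (a * r k) (s k) c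
      = - (r k * asc (s k) a c) + asc (r k) (s k) c * a + kl (r k) (s k) a c := fun k => by
    have e1 : kl a (r k) (s k) c = asc (a * r k) (s k) c - r k * asc a (s k) c
      - asc (r k) (s k) c * a := rfl
    have e2 : kl a (r k) (s k) c = kl (r k) (s k) a c := by
      rw [kl_s12 (r k) a (s k) c, kl_s23 (r k) (s k) a c, neg_neg]
    have e3 : asc a (s k) c = - asc (s k) a c := asc_s12 _ _ _
    rw [e3, mul_neg] at e1
    linear_combination (norm := abel) e2 - e1
  rw [Finset.sum_congr rfl fun k _ => e k, Finset.sum_add_distrib, Finset.sum_add_distrib,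
    Finset.sum_neg_distrib, ← Finset.sum_mul, NFA.as0 h, NFA.kl0 h, NFA.r_sac h]
  simp

theorem NFA.ra_s_c (h : O1F r s) (a c : A) :
    ∑ k, asc (r k * a) (s k) c = ∑ k, s k * asc (r k) a c := by
  have e : ∀ k, asc (r k * a) (s k) c
      = - (asc (s k) a c * r k) + a * asc (r k) (s k) c - kl (r k) (s k) a c := fun k => by
    have e1 : kl (r k) a (s k) c = asc (r k * a) (s k) c - a * asc (r k) (s k) c
      - asc a (s k) c * r k := rfl
    have e2 : kl (r k) a (s k) c = - kl (r k) (s k) a c := kl_s23 _ _ _ _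
    have e3 : asc a (s k) c = - asc (s k) a c := asc_s12 _ _ _
    rw [e3, neg_mul] at e1
    linear_combination (norm := abel) e2 - e1
  rw [Finset.sum_congr rfl fun k _ => e k, Finset.sum_sub_distrib, Finset.sum_add_distrib,
    Finset.sum_neg_distrib, ← Finset.mul_sum, NFA.as0 h, NFA.kl0 h, NFA.sac_r h]
  simp

theorem NFA.as_r_c (h : O1F r s) (a c : A) :
    ∑ k, asc (a * s k) (r k) c = - ∑ k, s k * asc (r k) a c := by
  have e : ∀ k, asc (a * s k) (r k) c
      = - (s k * asc (r k) a c) - asc (r k) (s k) c * a - kl (r k) (s k) a c := fun k => by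
    have e1 : kl a (s k) (r k) c = asc (a * s k) (r k) c - s k * asc a (r k) c
      - asc (s k) (r k) c * a := rfl
    have e2 : kl a (s k) (r k) c = - kl (r k) (s k) a c := by
      rw [kl_s23 a (r k) (s k) c, kl_s12 (r k) a (s k) c, kl_s23 (r k) (s k) a c, neg_neg]
    have e3 : asc a (r k) c = - asc (r k) a c := asc_s12 _ _ _
    have e4 : asc (s k) (r k) c = - asc (r k) (s k) c := asc_s12 _ _ _
    rw [e3, mul_neg, e4, neg_mul] at e1
    linear_combination (norm := abel) e2 - e1
  rw [Finset.sum_congr rfl fun k _ => e k, Finset.sum_sub_distrib, Finset.sum_sub_distrib,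
    Finset.sum_neg_distrib, ← Finset.sum_mul, NFA.as0 h, NFA.kl0 h]
  simp

theorem NFA.sa_r_c (h : O1F r s) (a c : A) :
    ∑ k, asc (s k * a) (r k) c = - ∑ k, asc (r k) a c * s k := by
  have e : ∀ k, asc (s k * a) (r k) c
      = - (asc (r k) a c * s k) - a * asc (r k) (s k) c + kl (r k) (s k) a c := fun k => by
    have e1 : kl (s k) a (r k) c = asc (s k * a) (r k) c - a * asc (s k) (r k) c
      - asc a (r k) c * s k := rfl
    have e2 : kl (s k) a (r k) c = kl (r k) (s k) a c := by
      rw [kl_s23 (s k) (r k) a c, kl_s12 (r k) (s k) a c, neg_neg]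
    have e3 : asc a (r k) c = - asc (r k) a c := asc_s12 _ _ _
    have e4 : asc (s k) (r k) c = - asc (r k) (s k) c := asc_s12 _ _ _
    rw [e3, neg_mul, e4, mul_neg] at e1
    linear_combination (norm := abel) e2 - e1
  rw [Finset.sum_congr rfl fun k _ => e k, Finset.sum_add_distrib, Finset.sum_sub_distrib,
    Finset.sum_neg_distrib, ← Finset.mul_sum, NFA.as0 h, NFA.kl0 h]
  simp

theorem NFA.s_rca (h : O1F r s) (a c : A) :
    ∑ k, s k * asc (r k) c a = - ∑ k, s k * asc (r k) a c := by
  rw [← Finset.sum_neg_distrib]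
  exact Finset.sum_congr rfl fun k _ => by rw [asc_s23 (r k) a c, mul_neg]

end NFA

theorem nfa : NFAStmt.{u} := by
  intro A _ _ ι _ r s h
  refine ⟨NFA.as0 h, NFA.r_sac h, NFA.sac_r h, NFA.ar_s_c h, NFA.ra_s_c h, NFA.as_r_c h,
    NFA.sa_r_c h, ?_, ?_, ?_, ?_⟩
  · intro a c
    have e : ∀ k, ((r k * a) * c) * s k = asc (r k) a c * s k + (r k * (a * c)) * s k :=
      fun k => by simp only [asc, sub_mul]; abel
    rw [Finset.sum_congr rfl fun k _ => e k, Finset.sum_add_distrib, h.ra_s, add_zero]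
  · intro a c
    have e : ∀ k, s k * ((r k * a) * c) = s k * asc (r k) a c + s k * (r k * (a * c)) :=
      fun k => by simp only [asc, mul_sub]; abel
    rw [Finset.sum_congr rfl fun k _ => e k, Finset.sum_add_distrib, h.s_ra, add_zero]
  · intro a c
    have e : ∀ k, ((a * r k) * c) * s k
        = - (asc (r k) a c * s k) + asc (r k * c) (s k) a + a * ((r k * c) * s k) := fun k => by
      have e1 : asc (r k * c) (s k) a = asc a (r k * c) (s k) := asc_cyc a (r k * c) (s k)
      have e2 : asc a (r k) c = - asc (r k) a c := asc_s12 _ _ _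
      rw [e1, ← neg_mul, ← e2]
      simp only [asc, sub_mul]; abel
    rw [Finset.sum_congr rfl fun k _ => e k, Finset.sum_add_distrib, Finset.sum_add_distrib,
      Finset.sum_neg_distrib, ← Finset.mul_sum, h.ra_s, NFA.ra_s_c h, NFA.s_rca h, mul_zero]
    abel
  · intro a c
    have e : ∀ k, s k * ((a * r k) * c)
        = - (s k * asc (r k) a c) + ((s k * a) * r k) * c - asc (s k * a) (r k) c
          - asc (r k * c) (s k) a := fun k => by
      have e1 : asc (r k * c) (s k) a = asc (s k) a (r k * c) := (asc_cyc (r k * c) (s k) a).symm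
      have e2 : asc a (r k) c = - asc (r k) a c := asc_s12 _ _ _
      rw [e1, ← mul_neg, ← e2]
      simp only [asc, mul_sub]; abel
    rw [Finset.sum_congr rfl fun k _ => e k, Finset.sum_sub_distrib, Finset.sum_sub_distrib,
      Finset.sum_add_distrib, Finset.sum_neg_distrib, ← Finset.sum_mul, h.sa_r,
      NFA.sa_r_c h, NFA.ra_s_c h, NFA.s_rca h, zero_mul]
    abel

end ASF
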