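import Pool.Agent.H71.ASF.Stmts

/-!
# ASF, module WE1
-/

set_option autoImplicit false

namespace ASF

universe u

theorem we1 (hKE2 : KE2Stmt.{u}) (hKQ0 : KQ0Stmt.{u}) : WE1Stmt.{u} := by
  intro A _ _ _ b1 b2 b3 hT
  have hN := hT.n
  have c12 : cm b1 b2 = 0 := by rw [cm, hN.h12, hN.h21, sub_zero]
  have c23 : cm b2 b3 = 0 := by rw [cm, hN.h23, hN.h32, sub_zero]
  have c31 : cm b3 b1 = 0 := by rw [cm, hN.h31, hN.h13, sub_zero]
  have c13 : cm b1 b3 = 0 := by rw [cm, hN.h31, hN.h13, sub_zero]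
  have hXs : ∀ x y z : A, XX b1 b2 b3 y x z = - XX b1 b2 b3 x y z := by
    intro x y z
    have h := hKQ0 A b1 b2 b3 hN x y z
    rw [hT.z, cm_zero1] at h
    exact (neg_eq_of_add_eq_zero_right h).symm
  -- the alternating sum
  set Y : A → A → A → A := fun x y z =>
    cm b1 (asc (cm b2 x) (cm b3 y) z) + cm b2 (asc (cm b3 x) (cm b1 y) z)
      + cm b3 (asc (cm b1 x) (cm b2 y) z) - cm b2 (asc (cm b1 x) (cm b3 y) z)
      - cm b1 (asc (cm b3 x) (cm b2 y) z) - cm b3 (asc (cm b2 x) (cm b1 y) z) with hY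
  have hYs : ∀ x y z, Y y x z = Y x y z := by
    intro x y z
    simp only [hY]
    rw [asc_s12 (cm b3 x) (cm b2 y) z, asc_s12 (cm b1 x) (cm b3 y) z,
      asc_s12 (cm b2 x) (cm b1 y) z, asc_s12 (cm b3 x) (cm b1 y) z,
      asc_s12 (cm b2 x) (cm b3 y) z, asc_s12 (cm b1 x) (cm b2 y) z]
    simp only [cm_neg2]; abel
  have hL : ∀ bi bj : A, cm bi bj = 0 → ∀ x w z : A,
      asc (cm bi (cm bj x)) w z - asc (cm bj (cm bi x)) w z = - (6 • asc (dl bi bj x) w z) := by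
    intro bi bj h x w z
    rw [← asc_sub1, cmcm h, asc_neg1, asc_nsmul1]
  have hM : ∀ bi bj : A, cm bi bj = 0 → ∀ v y z : A,
      cm v (asc bi (cm bj y) z) - cm v (asc bj (cm bi y) z)
        = - (2 • cm v (cm (dl bi bj y) z)) := by
    intro bi bj h v y z
    rw [← cm_sub2, (hKE2 A bi bj h y z).1, cm_neg2, cm_nsmul2]
  have hK : ∀ bi bj : A, cm bi bj = 0 → ∀ x u : A,
      asc u bi (cm bj x) - asc u bj (cm bi x) = - (2 • cm (dl bi bj x) u) := by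
    intro bi bj h x u
    rw [asc_cyc' bi (cm bj x) u, asc_cyc' bj (cm bi x) u]
    exact (hKE2 A bi bj h x u).1
  have hI : ∀ x y z : A, Y x y z
      = - (18 • XX b1 b2 b3 x y z) - 2 • aa b1 b2 b3 y z x + 4 • aa b1 b2 b3 x z y := by
    intro x y z
    have E123 := asc_cm1 b1 (cm b2 x) (cm b3 y) z
    have E231 := asc_cm1 b2 (cm b3 x) (cm b1 y) z
    have E312 := asc_cm1 b3 (cm b1 x) (cm b2 y) z
    have E213 := asc_cm1 b2 (cm b1 x) (cm b3 y) z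
    have E132 := asc_cm1 b1 (cm b3 x) (cm b2 y) z
    have E321 := asc_cm1 b3 (cm b2 x) (cm b1 y) z
    have L3 := hL b1 b2 c12 x (cm b3 y) z
    have L1 := hL b2 b3 c23 x (cm b1 y) z
    have L2 := hL b3 b1 c31 x (cm b2 y) z
    have M2 := hM b3 b1 c31 (cm b2 x) y z
    have M3 := hM b1 b2 c12 (cm b3 x) y z
    have M1 := hM b2 b3 c23 (cm b1 x) y z
    have K3 := hK b1 b2 c12 x (cm (cm b3 y) z)
    have K1 := hK b2 b3 c23 x (cm (cm b1 y) z)
    have K2 := hK b3 b1 c31 x (cm (cm b2 y) z)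
    -- Jacobi
    have J3 := jacobi (cm b3 x) (dl b1 b2 y) z
    have J1 := jacobi (cm b1 x) (dl b2 b3 y) z
    have J2 := jacobi (cm b2 x) (dl b3 b1 y) z
    have hn : cm (cm (cm b3 x) (dl b1 b2 y)) z + cm (cm (cm b1 x) (dl b2 b3 y)) z
        + cm (cm (cm b2 x) (dl b3 b1 y)) z = 0 := by
      have e : cm (cm b3 x) (dl b1 b2 y) + cm (cm b1 x) (dl b2 b3 y)
          + cm (cm b2 x) (dl b3 b1 y) = - nu b1 b2 b3 y x := by
        rw [cm_swap (dl b1 b2 y) (cm b3 x), cm_swap (dl b2 b3 y) (cm b1 x),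
          cm_swap (dl b3 b1 y) (cm b2 x), nu]; abel
      rw [← cm_add1, ← cm_add1, e, hT.z, neg_zero, cm_zero1]
    have hS := hXs x y z
    -- orientation
    have o3 : cm (cm b3 x) (cm (dl b1 b2 y) z) = - cm (cm (dl b1 b2 y) z) (cm b3 x) :=
      cm_swap _ _
    have o1 : cm (cm b1 x) (cm (dl b2 b3 y) z) = - cm (cm (dl b2 b3 y) z) (cm b1 x) :=
      cm_swap _ _
    have o2 : cm (cm b2 x) (cm (dl b3 b1 y) z) = - cm (cm (dl b3 b1 y) z) (cm b2 x) :=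
      cm_swap _ _
    have p3 : cm (cm z (cm b3 x)) (dl b1 b2 y) = - cm (dl b1 b2 y) (cm z (cm b3 x)) :=
      cm_swap _ _
    have p1 : cm (cm z (cm b1 x)) (dl b2 b3 y) = - cm (dl b2 b3 y) (cm z (cm b1 x)) :=
      cm_swap _ _
    have p2 : cm (cm z (cm b2 x)) (dl b3 b1 y) = - cm (dl b3 b1 y) (cm z (cm b2 x)) :=
      cm_swap _ _
    have q3 : cm (dl b1 b2 x) (cm (cm b3 y) z) = - cm (dl b1 b2 x) (cm z (cm b3 y)) := by
      rw [cm_swap z (cm b3 y), cm_neg2]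
    have q1 : cm (dl b2 b3 x) (cm (cm b1 y) z) = - cm (dl b2 b3 x) (cm z (cm b1 y)) := by
      rw [cm_swap z (cm b1 y), cm_neg2]
    have q2 : cm (dl b3 b1 x) (cm (cm b2 y) z) = - cm (dl b3 b1 x) (cm z (cm b2 y)) := by
      rw [cm_swap z (cm b2 y), cm_neg2]
    have r3 : asc (cm b3 x) (dl b1 b2 y) z = - asc (dl b1 b2 y) (cm b3 x) z := asc_s12 _ _ _
    have r1 : asc (cm b1 x) (dl b2 b3 y) z = - asc (dl b2 b3 y) (cm b1 x) z := asc_s12 _ _ _
    have r2 : asc (cm b2 x) (dl b3 b1 y) z = - asc (dl b3 b1 y) (cm b2 x) z := asc_s12 _ _ _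
    have s1 : XX b1 b2 b3 y x z = asc (dl b1 b2 y) (cm b3 x) z + asc (dl b2 b3 y) (cm b1 x) z
      + asc (dl b3 b1 y) (cm b2 x) z := rfl
    rw [o3] at M3
    rw [o1] at M1
    rw [o2] at M2
    rw [p3, r3] at J3
    rw [p1, r1] at J1
    rw [p2, r2] at J2
    rw [q3] at K3
    rw [q1] at K1
    rw [q2] at K2
    rw [hS] at s1
    have t1 : XX b1 b2 b3 x y z = asc (dl b1 b2 x) (cm b3 y) z + asc (dl b2 b3 x) (cm b1 y) z
      + asc (dl b3 b1 x) (cm b2 y) z := rfl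
    have t2 : aa b1 b2 b3 y z x = cm (dl b1 b2 y) (cm z (cm b3 x))
      + cm (dl b2 b3 y) (cm z (cm b1 x)) + cm (dl b3 b1 y) (cm z (cm b2 x)) := rfl
    have t3 : aa b1 b2 b3 x z y = cm (dl b1 b2 x) (cm z (cm b3 y))
      + cm (dl b2 b3 x) (cm z (cm b1 y)) + cm (dl b3 b1 x) (cm z (cm b2 y)) := rfl
    simp only [hY]
    rw [t2, t3]
    linear_combination (norm := abel) - E123 - E231 - E312 + E213 + E132 + E321 + L3 + L1 + L2
      - M1 - M2 - M3 + (2:ℤ) • K1 + (2:ℤ) • K2 + (2:ℤ) • K3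
      - (2:ℤ) • J1 - (2:ℤ) • J2 - (2:ℤ) • J3 + (2:ℤ) • hn - (12:ℤ) • s1 + (6:ℤ) • t1
  intro x y z
  have h1 := hI x y z
  have h2 := hI y x z
  rw [hYs x y z, hXs x y z] at h2
  apply e6
  linear_combination (norm := abel) h2 - h1

end ASF
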